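import Pool.Agent.AFL.Stmts

/-! AFL, row NUB: the noise of the form, in units of the form at the start. -/

set_option autoImplicit false

open MeasureTheory ProbabilityTheory

open scoped BigOperators Matrix

noncomputable section

namespace Pool.Agent.AFL.H86

open Pool.Agent.LE.QF Pool.Agent.AFJ Pool.Agent.ABY

/-- NUB -/
theorem nub : NubStmt := by
  intro hbet hnbw hnbl hnbo heub hpta X _ _ F c₀ C₀ q hOk hPt hN hN0 W hW f hf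
  obtain ⟨hκv, hk0, -, -, -, -, -, hr, -, -, hKL, -, hrho⟩ := hpta heub X F c₀ C₀ q hOk hPt hN hN0
  obtain ⟨hbU, hUR, hRA⟩ := hOk.hb
  obtain ⟨hbQ1, hQ1Q, hQA⟩ := hOk.hQ
  obtain ⟨nκv, nκv1, nr, nc₀, nc₀1, nC₀, nN, nδ, nL, nω, nω2, nε, nε1, ns1, -⟩ := hOk.num
  have hS1 := hOk.hS1
  have hbR : ∀ c ∈ F.b, c ∈ F.Rg := fun c hc => hUR (hbU hc)
  have hbQ : ∀ c ∈ F.b, c ∈ F.Q := fun c hc => hQ1Q (hbQ1 hc)
  have hr0 : (0 : ℝ) ≤ F.r := by linarith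
  obtain ⟨j, hj⟩ : ∃ j : X → X → ℝ, j = fun c => Ec (F.Gt q) (F.k q.1) F.A c *ᵥ f := ⟨_, rfl⟩
  have hR0 : (0 : ℝ) ≤ q.1 := hPt.ht.1
  obtain ⟨ns3, nold⟩ := hOk.hs3
  -- one term
  have hone : ∀ c ∈ F.b, W (fun x => if x ∈ F.Q then j c x else 0) ≤
      2 / c₀ * ∑ x ∈ F.A, j c x ^ 2 / F.k q.1 x + F.s1 * (∑ x ∈ F.A, |j c x|) ^ 2 +
        F.s3 * (∑ x ∈ F.A \ F.Yg, |j c x|) ^ 2 := by
    intro c _
    obtain ⟨φ, hφ⟩ : ∃ φ : X → ℝ, φ = fun x => if x ∈ F.Q then j c x else 0 := ⟨_, rfl⟩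
    have hφ0 : ∀ x, x ∉ F.Q → φ x = 0 := by
      intro x hx
      rw [hφ]
      exact if_neg hx
    have hφ1 : ∀ x ∈ F.Q, φ x = j c x := by
      intro x hx
      rw [hφ]
      exact if_pos hx
    obtain ⟨f', hf', hWf⟩ := hW φ hφ0
    have h1 := hS1 f' φ hf' hφ0
    rw [← hφ]
    have h0 : ∑ x ∈ F.Q ∩ F.Yg, |φ x| ≤ ∑ x ∈ F.A, |j c x| := by
      have h6 : ∑ x ∈ F.Q ∩ F.Yg, |φ x| = ∑ x ∈ F.Q ∩ F.Yg, |j c x| :=
        Finset.sum_congr rfl fun x hx => by rw [hφ1 x (Finset.mem_inter.1 hx).1]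
      rw [h6]
      exact Finset.sum_le_sum_of_subset_of_nonneg
        (fun x hx => hQA (Finset.mem_inter.1 hx).1) fun x _ _ => abs_nonneg _
    have h0' : ∑ x ∈ F.Q \ F.Yg, |φ x| ≤ ∑ x ∈ F.A \ F.Yg, |j c x| := by
      have h6 : ∑ x ∈ F.Q \ F.Yg, |φ x| = ∑ x ∈ F.Q \ F.Yg, |j c x| :=
        Finset.sum_congr rfl fun x hx => by rw [hφ1 x (Finset.mem_sdiff.1 hx).1]
      rw [h6]
      exact Finset.sum_le_sum_of_subset_of_nonneg
        (Finset.sdiff_subset_sdiff hQA (Finset.Subset.refl _)) fun x _ _ => abs_nonneg _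
    have h7 : F.s1 * (∑ x ∈ F.Q ∩ F.Yg, |φ x|) ^ 2 ≤ F.s1 * (∑ x ∈ F.A, |j c x|) ^ 2 :=
      mul_le_mul_of_nonneg_left
        (pow_le_pow_left₀ (Finset.sum_nonneg fun x _ => abs_nonneg _) h0 2) ns1
    have h7' : F.s3 * (∑ x ∈ F.Q \ F.Yg, |φ x|) ^ 2 ≤
        F.s3 * (∑ x ∈ F.A \ F.Yg, |j c x|) ^ 2 :=
      mul_le_mul_of_nonneg_left
        (pow_le_pow_left₀ (Finset.sum_nonneg fun x _ => abs_nonneg _) h0' 2) ns3
    have h2 : 2 * ∑ x ∈ F.Q, φ x ^ 2 / (F.k 0 x * F.g x) ≤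
        2 / c₀ * ∑ x ∈ F.A, j c x ^ 2 / F.k q.1 x := by
      have h3 : ∀ x ∈ F.Q, φ x ^ 2 / (F.k 0 x * F.g x) ≤ (1 / c₀) * (j c x ^ 2 / F.k q.1 x) := by
        intro x hx
        rw [hφ1 x hx]
        have hxA := hQA hx
        have e2 := hk0 x hxA
        have e3 := (hOk.hg x hxA).1
        have e4 := hN.hκ x
        have e5 : c₀ * F.k q.1 x ≤ F.k 0 x * F.g x := by
          calc c₀ * F.k q.1 x = F.k q.1 x * c₀ := mul_comm _ _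
            _ ≤ F.k 0 x * F.g x := mul_le_mul e2 e3 nc₀.le (by linarith)
        calc j c x ^ 2 / (F.k 0 x * F.g x) ≤ j c x ^ 2 / (c₀ * F.k q.1 x) :=
              div_le_div_of_nonneg_left (by positivity) (by positivity) e5
          _ = (1 / c₀) * (j c x ^ 2 / F.k q.1 x) := by
              field_simp
      have h4 : ∑ x ∈ F.Q, φ x ^ 2 / (F.k 0 x * F.g x) ≤
          (1 / c₀) * ∑ x ∈ F.A, j c x ^ 2 / F.k q.1 x := by
        refine (Finset.sum_le_sum h3).trans ?_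
        rw [← Finset.mul_sum]
        refine mul_le_mul_of_nonneg_left ?_ (by positivity)
        refine Finset.sum_le_sum_of_subset_of_nonneg hQA fun x _ _ => ?_
        have := hN.hκ x
        positivity
      calc 2 * ∑ x ∈ F.Q, φ x ^ 2 / (F.k 0 x * F.g x)
          ≤ 2 * ((1 / c₀) * ∑ x ∈ F.A, j c x ^ 2 / F.k q.1 x) :=
            mul_le_mul_of_nonneg_left h4 (by norm_num)
        _ = 2 / c₀ * ∑ x ∈ F.A, j c x ^ 2 / F.k q.1 x := by ring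
    linarith
  -- the three noises
  have hbk : ∀ c ∈ F.b, F.κv ≤ F.k q.1 c := fun c hc => hκv c (hbR c hc)
  have hbr : ∀ c ∈ F.b, rho (F.Gt q) (F.k q.1) F.A c ≤ F.r := fun c hc => (hrho c (hbQ c hc)).1
  have hw := hnbw hbet X (F.Gt q) (F.k q.1) F.A F.b f F.κv F.L F.r hN nκv nL.le hr0 hbk hbr hKL
  have hs := hnbl hbet X (F.Gt q) (F.k q.1) F.A F.b f F.κv F.r hN nκv hr0 hbk hbr
  have ho := hnbo hbet X (F.Gt q) (F.k q.1) F.A F.b (F.A \ F.Yg) f F.κv F.old hN nκv nold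
    Finset.sdiff_subset hbk (fun c hc => hOk.hold q hPt.ht.1 hPt.ht.2 c hc)
  have hE : qf (EE (F.Gt q) (F.k q.1) F.A) f ≤ 2 * qf F.E0 f := by
    have := hPt.fru f hf
    exact (le_abs_self _).trans this
  have e1 : ∑ c ∈ F.b, W (fun x => if x ∈ F.Q then j c x else 0) ≤
      2 / c₀ * ∑ c ∈ F.b, ∑ x ∈ F.A, j c x ^ 2 / F.k q.1 x +
        F.s1 * ∑ c ∈ F.b, (∑ x ∈ F.A, |j c x|) ^ 2 +
        F.s3 * ∑ c ∈ F.b, (∑ x ∈ F.A \ F.Yg, |j c x|) ^ 2 := by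
    refine (Finset.sum_le_sum hone).trans ?_
    rw [Finset.sum_add_distrib, Finset.sum_add_distrib, ← Finset.mul_sum, ← Finset.mul_sum,
      ← Finset.mul_sum]
  rw [hj] at e1
  refine e1.trans ?_
  have e2 : 2 / c₀ * ∑ c ∈ F.b, ∑ x ∈ F.A, (Ec (F.Gt q) (F.k q.1) F.A c *ᵥ f) x ^ 2 / F.k q.1 x ≤
      2 / c₀ * (8 * Real.sqrt (F.r * F.L / F.κv)) * (2 * qf F.E0 f) := by
    rw [mul_assoc]
    refine mul_le_mul_of_nonneg_left (hw.trans ?_) (by positivity)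
    exact mul_le_mul_of_nonneg_left hE (by positivity)
  have e3 : F.s1 * ∑ c ∈ F.b, (∑ x ∈ F.A, |(Ec (F.Gt q) (F.k q.1) F.A c *ᵥ f) x|) ^ 2 ≤
      8 * F.r * F.s1 / F.κv * (2 * qf F.E0 f) := by
    refine (mul_le_mul_of_nonneg_left hs ns1).trans ?_
    have e5 : F.s1 * (8 * F.r / F.κv * qf (EE (F.Gt q) (F.k q.1) F.A) f) =
        8 * F.r * F.s1 / F.κv * qf (EE (F.Gt q) (F.k q.1) F.A) f := by ring
    rw [e5]
    exact mul_le_mul_of_nonneg_left hE (by positivity)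
  have e3' : F.s3 * ∑ c ∈ F.b,
      (∑ x ∈ F.A \ F.Yg, |(Ec (F.Gt q) (F.k q.1) F.A c *ᵥ f) x|) ^ 2 ≤
      8 * F.old * F.s3 / F.κv * (2 * qf F.E0 f) := by
    refine (mul_le_mul_of_nonneg_left ho ns3).trans ?_
    have e5 : F.s3 * (8 * F.old / F.κv * qf (EE (F.Gt q) (F.k q.1) F.A) f) =
        8 * F.old * F.s3 / F.κv * qf (EE (F.Gt q) (F.k q.1) F.A) f := by ring
    rw [e5]
    exact mul_le_mul_of_nonneg_left hE (by positivity)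
  have e4 : F.nu c₀ * qf F.E0 f = 2 / c₀ * (8 * Real.sqrt (F.r * F.L / F.κv)) * (2 * qf F.E0 f) +
      8 * F.r * F.s1 / F.κv * (2 * qf F.E0 f) + 8 * F.old * F.s3 / F.κv * (2 * qf F.E0 f) := by
    unfold Fl.nu
    ring
  rw [e4]
  exact add_le_add (add_le_add e2 e3) e3'

end Pool.Agent.AFL.H86
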